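import Pool.Agent.helper94.PL.Spec

set_option autoImplicit false

open Complex Metric Set Filter Topology MeasureTheory MPS
open Pool.Agent.helper16.Multibrot

noncomputable section

namespace PLY

theorem BIT_inv_mem {w : ℂ} (hw : 1 < ‖w‖) : w⁻¹ ∈ ball (0 : ℂ) 1 := by
  rw [mem_ball_zero_iff, norm_inv]
  exact inv_lt_one_of_one_lt₀ hw

theorem BIT_step {n : ℕ} {c : ℂ} {E : ℂ → ℂ} (hE : BE n c 1 E) {w : ℂ} (hw : 1 < ‖w‖) :
    fc n c (chi E w) = chi E (w ^ n) := by
  have hw0 : w ≠ 0 := by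
    intro h
    rw [h, norm_zero] at hw
    linarith
  have hwn : w ^ n ≠ 0 := pow_ne_zero _ hw0
  have h1 := hE.fe w⁻¹ (BIT_inv_mem hw)
  unfold fc chi
  rw [mul_pow, h1, inv_pow]
  field_simp
  ring

theorem BIT : BIT_stmt := by
  intro n c E hn hE w hw
  have hit : ∀ j : ℕ, (fc n c)^[j] (chi E w) = chi E (w ^ (n ^ j)) := by
    intro j
    induction j with
    | zero => simp
    | succ j ih =>
      have hwj : 1 < ‖w ^ (n ^ j)‖ := by
        rw [norm_pow]
        exact one_lt_pow₀ hw (pow_pos (by omega) j).ne'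
      rw [Function.iterate_succ_apply', ih, BIT_step hE hwj, ← pow_mul, ← pow_succ]
  refine ⟨hit, ?_⟩
  have hnj : Tendsto (fun j : ℕ => n ^ j) atTop atTop :=
    tendsto_pow_atTop_atTop_of_one_lt (by omega)
  have h1 : Tendsto (fun j : ℕ => ‖w‖ ^ (n ^ j)) atTop atTop :=
    (tendsto_pow_atTop_atTop_of_one_lt hw).comp hnj
  have h2 : Tendsto (fun j : ℕ => (w ^ (n ^ j))⁻¹) atTop (𝓝 0) := by
    rw [tendsto_zero_iff_norm_tendsto_zero]
    have h3 : (fun j : ℕ => ‖(w ^ (n ^ j))⁻¹‖) = fun j : ℕ => (‖w‖ ^ (n ^ j))⁻¹ := by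
      funext j
      rw [norm_inv, norm_pow]
    rw [h3]
    exact tendsto_inv_atTop_zero.comp h1
  have hc : ContinuousAt E 0 := by
    have h3 : DifferentiableAt ℂ E 0 :=
      (hE.hol 0 (mem_ball_self one_pos)).differentiableAt (isOpen_ball.mem_nhds (mem_ball_self one_pos))
    exact h3.continuousAt
  have h4 : Tendsto (fun j : ℕ => ‖E (w ^ (n ^ j))⁻¹‖) atTop (𝓝 1) := by
    have h5 : Tendsto (fun j : ℕ => E (w ^ (n ^ j))⁻¹) atTop (𝓝 1) := by
      have h6 := hc.tendsto.comp h2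
      rw [hE.one] at h6
      exact h6
    have h7 := h5.norm
    rwa [norm_one] at h7
  have h8 := h1.atTop_mul_pos one_pos h4
  refine h8.congr fun j => ?_
  rw [hit j]
  unfold chi
  rw [norm_mul, norm_pow]

end PLY
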